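import Pool.Agent.R919.MT.Mom

/-!
# Detection of the powers of the augmentation ideal by cyclic quotients
-/

set_option autoImplicit false

namespace Pool.Agent.R919.MT

open Finset

section linear

variable {R : Type} [CommRing R] {H : Type} [CommGroup H] {T : Type} [Fintype T] (e : T → H)

/-- The element `g - 1` is a linear form in the elements `e_l - 1`, modulo the square of the
augmentation ideal. -/
def IsLinear (R : Type) [CommRing R] {H : Type} [CommGroup H] {T : Type} [Fintype T] (e : T → H)
    (g : H) : Prop :=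
  ∃ Q : MvPolynomial T R, Q.IsHomogeneous 1 ∧
    (MonoidAlgebra.single g 1 - 1 : MonoidAlgebra R H) - ev e Q ∈ augIdeal R H ^ 2

theorem isLinear_one : IsLinear R e 1 :=
  ⟨0, MvPolynomial.isHomogeneous_zero _ _ _, by
    rw [map_zero, sub_zero, show (MonoidAlgebra.single (1 : H) (1 : R) : MonoidAlgebra R H) = 1 from
      rfl, sub_self]
    exact Ideal.zero_mem _⟩

theorem isLinear_mul {g h : H} (hg : IsLinear R e g) (hh : IsLinear R e h) :
    IsLinear R e (g * h) := by
  obtain ⟨P, hP, hP'⟩ := hg
  obtain ⟨Q, hQ, hQ'⟩ := hh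
  refine ⟨P + Q, hP.add hQ, ?_⟩
  have h1 : (MonoidAlgebra.single (g * h) 1 - 1 : MonoidAlgebra R H) - ev e (P + Q) =
      ((MonoidAlgebra.single g 1 - 1 : MonoidAlgebra R H) - ev e P) +
      ((MonoidAlgebra.single h 1 - 1 : MonoidAlgebra R H) - ev e Q) +
      (MonoidAlgebra.single g 1 - 1) * (MonoidAlgebra.single h 1 - 1) := by
    have h2 : (MonoidAlgebra.single (g * h) 1 : MonoidAlgebra R H) =
        MonoidAlgebra.single g 1 * MonoidAlgebra.single h 1 := by
      rw [MonoidAlgebra.single_mul_single, one_mul]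
    rw [h2, map_add]
    ring
  rw [h1]
  refine Ideal.add_mem _ (Ideal.add_mem _ hP' hQ') ?_
  rw [pow_two]
  exact Ideal.mul_mem_mul (single_sub_one_mem _) (single_sub_one_mem _)

theorem isLinear_e (l : T) : IsLinear R e (e l) :=
  ⟨MvPolynomial.X l, MvPolynomial.isHomogeneous_X _ _, by
    rw [ev_X, sub_self]
    exact Ideal.zero_mem _⟩

theorem isLinear_pow {g : H} (hg : IsLinear R e g) (n : ℕ) : IsLinear R e (g ^ n) := by
  induction n with
  | zero => rw [pow_zero]; exact isLinear_one e
  | succ n ih => rw [pow_succ]; exact isLinear_mul e ih hg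

theorem exists_poly (hL : ∀ g, IsLinear R e g) (j : ℕ) :
    ∀ x ∈ augIdeal R H ^ j, ∃ P : MvPolynomial T R, P.IsHomogeneous j ∧
      x - ev e P ∈ augIdeal R H ^ (j + 1) := by
  induction j with
  | zero =>
    intro x _
    refine ⟨MvPolynomial.C (MonoidAlgebra.lift R R H (1 : H →* R) x),
      MvPolynomial.isHomogeneous_C _ _, ?_⟩
    rw [← MvPolynomial.algebraMap_eq, AlgHom.commutes, zero_add, pow_one, mem_aug, map_sub,
      AlgHom.commutes]
    exact sub_self _
  | succ j ih =>
    intro x hx
    refine pow_succ_induction (P := fun x => ∃ P : MvPolynomial T R, P.IsHomogeneous (j + 1) ∧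
      x - ev e P ∈ augIdeal R H ^ (j + 1 + 1)) ?_ ?_ ?_ hx
    · refine ⟨0, MvPolynomial.isHomogeneous_zero _ _ _, ?_⟩
      rw [map_zero, sub_self]
      exact Ideal.zero_mem _
    · rintro x y ⟨P, hP, hP'⟩ ⟨Q, hQ, hQ'⟩
      refine ⟨P + Q, hP.add hQ, ?_⟩
      rw [map_add, add_sub_add_comm]
      exact Ideal.add_mem _ hP' hQ'
    · intro x hx g
      obtain ⟨P, hP, hP'⟩ := ih x hx
      obtain ⟨Q, hQ, hQ'⟩ := hL g
      refine ⟨P * Q, hP.mul hQ, ?_⟩
      have h1 : x * (MonoidAlgebra.single g 1 - 1) - ev e (P * Q) =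
          (x - ev e P) * (MonoidAlgebra.single g 1 - 1) +
          ev e P * ((MonoidAlgebra.single g 1 - 1) - ev e Q) := by
        rw [map_mul]
        ring
      rw [h1]
      refine Ideal.add_mem _ ?_ ?_
      · rw [pow_succ]
        exact Ideal.mul_mem_mul hP' (single_sub_one_mem _)
      · rw [add_assoc, pow_add]
        exact Ideal.mul_mem_mul (ev_mem e hP) hQ'

theorem pow_sub_one (g : H) (n : ℕ) :
    (MonoidAlgebra.single (g ^ n) 1 - 1 : MonoidAlgebra R H) -
      (n : MonoidAlgebra R H) * (MonoidAlgebra.single g 1 - 1) ∈ augIdeal R H ^ 2 := by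
  induction n with
  | zero =>
    rw [pow_zero, Nat.cast_zero, zero_mul, sub_zero,
      show (MonoidAlgebra.single (1 : H) (1 : R) : MonoidAlgebra R H) = 1 from rfl, sub_self]
    exact Ideal.zero_mem _
  | succ n ih =>
    have h1 : (MonoidAlgebra.single (g ^ (n + 1)) 1 - 1 : MonoidAlgebra R H) -
        ((n + 1 : ℕ) : MonoidAlgebra R H) * (MonoidAlgebra.single g 1 - 1) =
        ((MonoidAlgebra.single (g ^ n) 1 - 1 : MonoidAlgebra R H) -
        (n : MonoidAlgebra R H) * (MonoidAlgebra.single g 1 - 1)) +
        (MonoidAlgebra.single (g ^ n) 1 - 1) * (MonoidAlgebra.single g 1 - 1) := by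
      have h2 : (MonoidAlgebra.single (g ^ (n + 1)) 1 : MonoidAlgebra R H) =
          MonoidAlgebra.single (g ^ n) 1 * MonoidAlgebra.single g 1 := by
        rw [MonoidAlgebra.single_mul_single, one_mul, pow_succ]
      rw [h2]
      push_cast
      ring
    rw [h1]
    refine Ideal.add_mem _ ih ?_
    rw [pow_two]
    exact Ideal.mul_mem_mul (single_sub_one_mem _) (single_sub_one_mem _)

theorem ev_monomial_mem_succ {l : T} {n : ℕ} (he : e l ^ n = 1) {α : T →₀ ℕ} (hα : α l ≠ 0)
    (c : R) : ev e (MvPolynomial.monomial α ((n : R) * c)) ∈ augIdeal R H ^ (α.degree + 1) := by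
  classical
  have h3 : α = (α - Finsupp.single l 1) + Finsupp.single l 1 := by
    ext i
    by_cases hi : i = l
    · subst hi
      simp
      omega
    · simp [Finsupp.single_apply, Ne.symm hi]
  set β := α - Finsupp.single l 1 with hβ
  rw [h3, ev_monomial_succ, map_add, Finsupp.degree_single, add_assoc, pow_add]
  have h4 : ev e (MvPolynomial.monomial β ((n : R) * c)) * (MonoidAlgebra.single (e l) 1 - 1) =
      ev e (MvPolynomial.monomial β c) *
        ((n : MonoidAlgebra R H) * (MonoidAlgebra.single (e l) 1 - 1)) := by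
    have h5 : (MvPolynomial.monomial β ((n : R) * c) : MvPolynomial T R) =
        (n : MvPolynomial T R) * MvPolynomial.monomial β c := by
      rw [← map_natCast (MvPolynomial.C (σ := T) (R := R)) n, MvPolynomial.C_mul_monomial]
    rw [h5, map_mul, map_natCast]
    ring
  rw [h4]
  refine Ideal.mul_mem_mul (ev_monomial_mem e β c) ?_
  have h6 := pow_sub_one (R := R) (e l) n
  rw [he, show (MonoidAlgebra.single (1 : H) (1 : R) : MonoidAlgebra R H) = 1 from rfl, sub_self,
    zero_sub] at h6
  exact Ideal.neg_mem_iff _ |>.1 h6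

end linear

section padic

variable {p : ℕ} [hp : Fact p.Prime] {T : Type} [Fintype T]

theorem dvd_of_zero {k : ℕ} {x : ℤ_[p]} (h : PadicInt.toZModPow k x = 0) : (p : ℤ_[p]) ^ k ∣ x := by
  rw [← Ideal.mem_span_singleton, ← PadicInt.ker_toZModPow, RingHom.mem_ker]
  exact h

/-- A polynomial of small degree with small values has small coefficients. -/
theorem coeff_dvd (k : ℕ) : ∀ Q : MvPolynomial T ℤ_[p], (∀ α ∈ Q.support, ∀ i, α i < p) →
    (∀ b : T → ℕ, (p : ℤ_[p]) ^ k ∣ MvPolynomial.eval (fun l => (b l : ℤ_[p])) Q) →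
    ∀ α, (p : ℤ_[p]) ^ k ∣ MvPolynomial.coeff α Q := by
  induction k with
  | zero => intro Q _ _ α; rw [pow_zero]; exact one_dvd _
  | succ k ih =>
    intro Q hdeg h α
    have h1 : MvPolynomial.map (PadicInt.toZMod (p := p)) Q = 0 := by
      refine MvPolynomial.eq_zero_of_eval_eq_zero _ _ _ (fun v => ?_) ?_
      · have h2 : v = PadicInt.toZMod (p := p) ∘ fun l => (((v l).val : ℕ) : ℤ_[p]) := by
          funext l
          simp
        rw [MvPolynomial.eval_map, h2, ← MvPolynomial.eval₂_comp]
        have h3 : (p : ℤ_[p]) ∣ MvPolynomial.eval (fun l => (((v l).val : ℕ) : ℤ_[p])) Q :=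
          (dvd_pow_self _ (Nat.succ_ne_zero k)).trans (h fun l => (v l).val)
        obtain ⟨y, hy⟩ := h3
        rw [hy, map_mul, map_natCast, ZMod.natCast_self, zero_mul]
      · rw [MvPolynomial.mem_restrictDegree]
        intro s hs i
        have h2 := hdeg s (MvPolynomial.support_map_subset _ _ hs) i
        rw [ZMod.card]
        omega
    have h2 : MvPolynomial.C (p : ℤ_[p]) ∣ Q := by
      rw [MvPolynomial.C_dvd_iff_map_hom_eq_zero (PadicInt.toZMod (p := p)) _ (fun r => ?_)]
      · exact h1
      · rw [← RingHom.mem_ker, PadicInt.ker_toZMod, PadicInt.maximalIdeal_eq_span_p,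
          Ideal.mem_span_singleton]
    obtain ⟨Q', rfl⟩ := h2
    have hp0 : (p : ℤ_[p]) ≠ 0 := Nat.cast_ne_zero.2 hp.1.ne_zero
    rw [MvPolynomial.coeff_C_mul, pow_succ']
    refine mul_dvd_mul_left _ (ih Q' ?_ ?_ α)
    · intro β hβ i
      refine hdeg β ?_ i
      rw [MvPolynomial.mem_support_iff, MvPolynomial.coeff_C_mul]
      exact mul_ne_zero hp0 (MvPolynomial.mem_support_iff.1 hβ)
    · intro b
      have h3 := h b
      rw [map_mul, MvPolynomial.eval_C, pow_succ'] at h3
      exact (mul_dvd_mul_iff_left hp0).1 h3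

end padic

section detect

variable {p : ℕ} [hp : Fact p.Prime] {H : Type} [CommGroup H] {T : Type} [Fintype T] (e : T → H)

/-- **Detection by moments.** -/
theorem mem_of_mom {a : T → ℕ} (he : ∀ l, e l ^ p ^ a l = 1) (hL : ∀ g, IsLinear ℤ_[p] e g)
    (hφ : ∀ (k : ℕ) (b : T → ℕ), ∃ φ : H →* Multiplicative (ZMod (p ^ k)),
      ∀ l, (φ (e l)).toAdd = if k ≤ a l then (b l : ZMod (p ^ k)) else 0)
    {s : ℕ} (hs : s ≤ p) {x : MonoidAlgebra ℤ_[p] H}
    (hx0 : 0 < s → x ∈ augIdeal ℤ_[p] H)
    (hx : ∀ (k : ℕ) (φ : H →* Multiplicative (ZMod (p ^ k))), ∀ j < s,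
      mom (PadicInt.toZModPow k) φ j x = 0) : x ∈ augIdeal ℤ_[p] H ^ s := by
  classical
  have main : ∀ j ≤ s, x ∈ augIdeal ℤ_[p] H ^ j := by
    intro j
    induction j with
    | zero => intro _; rw [pow_zero, Ideal.one_eq_top]; exact Submodule.mem_top
    | succ j ih =>
      intro hj
      have hxj := ih (by omega)
      by_cases hj0 : j = 0
      · subst hj0
        rw [zero_add, pow_one]
        exact hx0 (by omega)
      obtain ⟨P, hP, hP'⟩ := exists_poly e hL j x hxj
      have hdeg : ∀ α ∈ P.support, α.degree = j := by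
        intro α hα
        have h2 := hP (MvPolynomial.mem_support_iff.1 hα)
        rw [Finsupp.degree_eq_weight_one]
        exact h2
      have hval : ∀ (k : ℕ) (φ : H →* Multiplicative (ZMod (p ^ k))),
          MvPolynomial.eval₂ (PadicInt.toZModPow k) (fun l => (φ (e l)).toAdd) P = 0 := by
        intro k φ
        have h1 := mom_ev e (PadicInt.toZModPow (p := p) k) φ hP
        have h2 := mom_zero (PadicInt.toZModPow (p := p) k) φ (j + 1) _ hP' j (Nat.lt_succ_self j)
        rw [map_sub, hx k φ j (by omega), zero_sub, neg_eq_zero] at h2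
        rw [h2] at h1
        have h3 : IsUnit ((j.factorial : ℕ) : ZMod (p ^ k)) := by
          rw [ZMod.isUnit_iff_coprime]
          refine Nat.Coprime.pow_right k ?_
          exact ((Nat.Prime.coprime_iff_not_dvd hp.1).2
            (fun h => by have := (hp.1.dvd_factorial).1 h; omega)).symm
        exact (h3.mul_right_eq_zero).1 h1.symm
      have hP2 : ev e P ∈ augIdeal ℤ_[p] H ^ (j + 1) := by
        rw [P.as_sum, map_sum]
        refine Submodule.sum_mem _ fun α hα => ?_
        have hα0 : α.support.Nonempty := by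
          rw [Finsupp.support_nonempty_iff]
          rintro rfl
          have := hdeg 0 hα
          rw [map_zero] at this
          exact hj0 this.symm
        obtain ⟨l₀, hl₀, hmin⟩ := Finset.exists_min_image α.support a hα0
        -- the filtered polynomial
        set Q : MvPolynomial T ℤ_[p] := ∑ β ∈ P.support.filter (fun β => ∀ l, β l ≠ 0 → a l₀ ≤ a l),
          MvPolynomial.monomial β (MvPolynomial.coeff β P) with hQ
        have hcoeff : ∀ β, MvPolynomial.coeff β Q =
            if β ∈ P.support.filter (fun β => ∀ l, β l ≠ 0 → a l₀ ≤ a l) then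
              MvPolynomial.coeff β P else 0 := by
          intro β
          rw [hQ, MvPolynomial.coeff_sum]
          simp_rw [MvPolynomial.coeff_monomial]
          rw [Finset.sum_ite_eq']
        have h1 : (p : ℤ_[p]) ^ a l₀ ∣ MvPolynomial.coeff α Q := by
          refine coeff_dvd (a l₀) Q ?_ ?_ α
          · intro β hβ i
            rw [MvPolynomial.mem_support_iff, hcoeff] at hβ
            have h2 : β ∈ P.support := by
              by_contra h3
              rw [if_neg (fun h4 => h3 (Finset.mem_filter.1 h4).1)] at hβ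
              exact hβ rfl
            have h3 := hdeg β h2
            have h4 : β i ≤ β.degree := Finsupp.le_degree i β
            omega
          · intro b
            apply dvd_of_zero
            obtain ⟨φ, hφb⟩ := hφ (a l₀) b
            have h2 := hval (a l₀) φ
            rw [MvPolynomial.eval₂_eq'] at h2
            rw [MvPolynomial.eval₂_comp, hQ, MvPolynomial.eval₂_sum]
            have h3 : ∀ β ∈ P.support, (PadicInt.toZModPow (a l₀)) (MvPolynomial.coeff β P) *
                ∏ i, (φ (e i)).toAdd ^ β i =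
                if (∀ l, β l ≠ 0 → a l₀ ≤ a l) then
                  MvPolynomial.eval₂ (PadicInt.toZModPow (a l₀))
                    ((PadicInt.toZModPow (a l₀)) ∘ fun l => (b l : ℤ_[p]))
                    (MvPolynomial.monomial β (MvPolynomial.coeff β P)) else 0 := by
              intro β _
              split_ifs with h4
              · rw [MvPolynomial.eval₂_monomial, Finsupp.prod_fintype _ _ (fun i => pow_zero _)]
                congr 1
                refine Finset.prod_congr rfl fun i _ => ?_
                by_cases h5 : β i = 0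
                · rw [h5, pow_zero, pow_zero]
                · rw [hφb, if_pos (h4 i h5)]
                  simp
              · push Not at h4
                obtain ⟨l, hl1, hl2⟩ := h4
                rw [Finset.prod_eq_zero (Finset.mem_univ l), mul_zero]
                rw [hφb, if_neg (by omega), zero_pow hl1]
            rw [Finset.sum_congr rfl h3, ← Finset.sum_filter] at h2
            exact h2
        have h2 : α ∈ P.support.filter (fun β => ∀ l, β l ≠ 0 → a l₀ ≤ a l) := by
          rw [Finset.mem_filter]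
          exact ⟨hα, fun l hl => hmin l (Finsupp.mem_support_iff.2 hl)⟩
        rw [hcoeff, if_pos h2] at h1
        obtain ⟨c, hc⟩ := h1
        have h3 := ev_monomial_mem_succ e (he l₀) (Finsupp.mem_support_iff.1 hl₀) c
        rw [hdeg α hα] at h3
        rw [hc]
        push_cast at h3
        exact h3
      have h4 : x = (x - ev e P) + ev e P := by rw [sub_add_cancel]
      rw [h4]
      exact Ideal.add_mem _ hP' hP2
  exact main s le_rfl

end detect

end Pool.Agent.R919.MT
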