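import Mathlib

/-!
# Mazur-Tate elements: definitions
-/

set_option autoImplicit false

namespace Pool.Agent.R919.MT

open Finset

section groups

variable {J : Type} (G : J → Type) [∀ j, CommGroup (G j)]

/-- The Galois group `Γ_m` of the compositum `F_m` of the fields `F_ℓ`, `ℓ ∈ m`, where `G ℓ` is the
Galois group of `F_ℓ`. -/
abbrev Gal (m : Finset J) : Type := ∀ l : {x // x ∈ m}, G l

/-- The restriction `Γ_m → Γ_n` for `n ⊆ m`. -/
def res {n m : Finset J} (h : n ⊆ m) : Gal G m →* Gal G n where
  toFun g l := g ⟨l, h l.2⟩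
  map_one' := rfl
  map_mul' _ _ := rfl

end groups

section ring

variable (R : Type) [CommRing R] (H : Type) [CommGroup H]

/-- The augmentation ideal of the group ring `R[H]`. -/
noncomputable def augIdeal : Ideal (MonoidAlgebra R H) :=
  RingHom.ker (MonoidAlgebra.lift R R H (1 : H →* R)).toRingHom

end ring

/-- The local data of an elliptic curve at the primes `ℓ`: the numbers `a_ℓ`, the primes `ℓ` (units of
`R = ℤ_p`); and the constant `#Ш · Tam / (#E(ℚ)_tors) ^ 2 · ∏ #E^ns(𝔽_ℓ) / ℓ`, the product over the bad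
primes. -/
structure Curve (R J : Type) [CommRing R] where
  /-- the numbers `a_ℓ` -/
  a : J → R
  /-- the primes `ℓ` -/
  q : J → Rˣ
  /-- the constant -/
  const : R

/-- The number `#E(𝔽_ℓ) / ℓ = 1 - a_ℓ / ℓ + 1 / ℓ`. -/
def Curve.points {R J : Type} [CommRing R] (c : Curve R J) (l : J) : R :=
  1 - c.a l * ((c.q l)⁻¹ : Rˣ) + ((c.q l)⁻¹ : Rˣ)

/-- The number `(-1) ^ ν(m) · 𝓛_S^alg`. -/
def Curve.leading {R J : Type} [CommRing R] (c : Curve R J) (m : Finset J) : R :=
  c.const * ∏ l ∈ m, -c.points l

/-- The Euler factor `-u · (1 - a_ℓ / ℓ · v + 1 / ℓ · v ^ 2)` in the group ring of `H`; here `u`, `v` are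
the Frobenius element of `ℓ` and its inverse (in the order given by the normalisations). -/
noncomputable def Curve.euler {R J : Type} [CommRing R] (c : Curve R J) {H : Type} [CommGroup H] (l : J)
    (u v : H) : MonoidAlgebra R H :=
  -(MonoidAlgebra.single u 1) * (1 - MonoidAlgebra.single v (c.a l * ((c.q l)⁻¹ : Rˣ)) +
    MonoidAlgebra.single (v ^ 2) (((c.q l)⁻¹ : Rˣ) : R))

/-- The modular elements `θ_m` for the fields `F_m` (conductor `m`), and the values of the Mazur-Tate
pairing on a basis of `E(ℚ)` modulo torsion. -/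
structure Elements {R J : Type} [CommRing R] [DecidableEq J] (c : Curve R J) (G : J → Type)
    [∀ j, CommGroup (G j)] (r : ℕ) where
  /-- the element `θ_m` in `R[Γ_m]` -/
  θ : ∀ m : Finset J, MonoidAlgebra R (Gal G m)
  /-- the elements `⟨x_i, x_j⟩_m` of `Γ_m` -/
  pairing : ∀ m : Finset J, Fin r → Fin r → Gal G m
  /-- the Frobenius elements -/
  u : ∀ n : Finset J, J → Gal G n
  /-- the Frobenius elements -/
  v : ∀ n : Finset J, J → Gal G n
  /-- the norm relations -/
  θ_res : ∀ {n m : Finset J} (h : n ⊆ m), MonoidAlgebra.mapDomain (res G h) (θ m) =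
    (∏ l ∈ m \ n, c.euler l (u n l) (v n l)) * θ n
  /-- the pairings are compatible -/
  pairing_res : ∀ {n m : Finset J} (h : n ⊆ m) (i j : Fin r),
    res G h (pairing m i j) = pairing n i j

section conj

variable {R J : Type} [CommRing R] [DecidableEq J] {c : Curve R J} {G : J → Type}
  [∀ j, CommGroup (G j)] {r : ℕ} (X : Elements c G r)

/-- The determinant of the matrix with entries `y i j - 1`: a representative of the determinant of the
matrix `y` with entries in `H = I / I ^ 2`. -/
noncomputable def detMinusOne (R : Type) [CommRing R] {H : Type} [CommGroup H] {r : ℕ}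
    (y : Fin r → Fin r → H) : MonoidAlgebra R H :=
  Matrix.det (Matrix.of fun i j => (MonoidAlgebra.single (y i j) 1 - 1 : MonoidAlgebra R H))

/-- The order of vanishing for the subfield of `F_m` with the Galois group `H`, a quotient of `Γ_m`. -/
def Elements.Vanishing {m : Finset J} {H : Type} [CommGroup H] (f : Gal G m →* H) : Prop :=
  MonoidAlgebra.mapDomain f (X.θ m) ∈ augIdeal R H ^ r

/-- The conjecture of Mazur and Tate for the subfield of `F_m` with the Galois group `H`, a quotient of
`Γ_m`. -/
def Elements.Conj {m : Finset J} {H : Type} [CommGroup H] (f : Gal G m →* H) : Prop :=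
  X.Vanishing f ∧ MonoidAlgebra.mapDomain f (X.θ m) -
    MonoidAlgebra.single 1 (c.leading m) * detMinusOne R (fun i j => f (X.pairing m i j)) ∈
      augIdeal R H ^ (r + 1)

end conj

end Pool.Agent.R919.MT
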