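import Pool.Agent.R919.MT.Cyc

/-!
# Mazur-Tate elements: the reduction to cyclic fields
-/

set_option autoImplicit false

namespace Pool.Agent.R919.MT

open Finset

section defs

/-- The Galois group of `F_ℓ`: cyclic of order `p ^ a_ℓ`, with a chosen generator. -/
abbrev CycGal (p : ℕ) {J : Type} (a : J → ℕ) (l : J) : Type := Multiplicative (ZMod (p ^ a l))

variable {R J : Type} [CommRing R] [DecidableEq J] {c : Curve R J} {G : J → Type}
  [∀ j, CommGroup (G j)] {r : ℕ} (X : Elements c G r)

/-- The order of vanishing for all cyclic subfields of `F_n`. -/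
def Elements.VanishingCyclic (n : Finset J) : Prop :=
  ∀ (C : Type) [CommGroup C] [IsCyclic C] (g : Gal G n →* C), Function.Surjective g →
    X.Vanishing g

/-- The conjecture of Mazur and Tate for all cyclic subfields of `F_n`. -/
def Elements.ConjCyclic (n : Finset J) : Prop :=
  ∀ (C : Type) [CommGroup C] [IsCyclic C] (g : Gal G n →* C), Function.Surjective g →
    X.Conj g

end defs

section gens

variable {p : ℕ} [hp : Fact p.Prime] {J : Type} (a : J → ℕ) (m : Finset J)

/-- The generators. -/
noncomputable def gen (l : {x // x ∈ m}) : Gal (CycGal p a) m := by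
  classical
  exact Pi.mulSingle l (Multiplicative.ofAdd (1 : ZMod (p ^ a l)))

theorem gen_pow (l : {x // x ∈ m}) : gen (p := p) a m l ^ p ^ a l = 1 := by
  classical
  rw [gen, ← Pi.mulSingle_pow]
  have h : (Multiplicative.ofAdd (1 : ZMod (p ^ a l))) ^ p ^ a (l : J) = 1 := by
    rw [← ofAdd_nsmul, nsmul_eq_mul, mul_one, ZMod.natCast_self]
    rfl
  rw [h, Pi.mulSingle_one]

theorem isLinear_all (g : Gal (CycGal p a) m) : IsLinear ℤ_[p] (gen a m) g := by
  classical
  rw [← Finset.univ_prod_mulSingle g]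
  have h : ∀ s : Finset {x // x ∈ m}, IsLinear ℤ_[p] (gen a m) (∏ l ∈ s, Pi.mulSingle l (g l)) := by
    intro s
    induction s using Finset.induction_on with
    | empty => rw [Finset.prod_empty]; exact isLinear_one _
    | insert l s hl ih =>
      rw [Finset.prod_insert hl]
      refine isLinear_mul _ ?_ ih
      have h1 : Pi.mulSingle l (g l) = gen (p := p) a m l ^ ((g l).toAdd.val) := by
        rw [gen, ← Pi.mulSingle_pow]
        congr 1
        haveI : NeZero (p ^ a (l : J)) := ⟨pow_ne_zero _ hp.1.ne_zero⟩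
        rw [← ofAdd_nsmul, nsmul_eq_mul, mul_one, ZMod.natCast_zmod_val]
        rfl
      rw [h1]
      exact isLinear_pow _ (isLinear_e _ l) _
  exact h _

theorem exists_char (k : ℕ) (b : {x // x ∈ m} → ℕ) :
    ∃ φ : Gal (CycGal p a) m →* Multiplicative (ZMod (p ^ k)),
      ∀ l, (φ (gen a m l)).toAdd = if k ≤ a l then (b l : ZMod (p ^ k)) else 0 := by
  classical
  refine ⟨MonoidHom.mk' (fun g => Multiplicative.ofAdd (∑ l : {x // x ∈ m}, if h : k ≤ a l then
    (b l : ZMod (p ^ k)) * ZMod.castHom (pow_dvd_pow p h) (ZMod (p ^ k)) (g l).toAdd else 0))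
    (fun g h => ?_), fun l => ?_⟩
  · rw [← ofAdd_add, ← Finset.sum_add_distrib]
    congr 1
    refine Finset.sum_congr rfl fun l _ => ?_
    split_ifs with h1
    · rw [Pi.mul_apply, toAdd_mul, map_add]
      ring
    · rw [add_zero]
  · show ∑ l' : {x // x ∈ m}, (if h : k ≤ a l' then (b l' : ZMod (p ^ k)) *
      ZMod.castHom (pow_dvd_pow p h) (ZMod (p ^ k)) ((gen a m l) l').toAdd else 0) = _
    rw [Finset.sum_eq_single l]
    · rw [gen, Pi.mulSingle_eq_same]
      split_ifs with h1
      · rw [toAdd_ofAdd, map_one, mul_one]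
      · rfl
    · intro l' _ hl'
      rw [gen, Pi.mulSingle_eq_of_ne hl']
      split_ifs with h1
      · rw [toAdd_one, map_zero, mul_zero]
      · rfl
    · intro h
      exact absurd (Finset.mem_univ l) h

/-- **Detection by cyclic quotients.** -/
theorem cyc_detect {s : ℕ} (hs : s ≤ p) {x : MonoidAlgebra ℤ_[p] (Gal (CycGal p a) m)}
    (hx : ∀ (C : Type) [CommGroup C] [IsCyclic C] (g : Gal (CycGal p a) m →* C),
      Function.Surjective g → MonoidAlgebra.mapDomain g x ∈ augIdeal ℤ_[p] C ^ s) :
    x ∈ augIdeal ℤ_[p] (Gal (CycGal p a) m) ^ s := by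
  have hr : ∀ (k : ℕ) (φ : Gal (CycGal p a) m →* Multiplicative (ZMod (p ^ k))),
      MonoidAlgebra.mapDomain φ.rangeRestrict x ∈ augIdeal ℤ_[p] φ.range ^ s := fun k φ =>
    hx φ.range φ.rangeRestrict φ.rangeRestrict_surjective
  refine mem_of_mom (gen a m) (a := fun l => a l) (gen_pow a m) (isLinear_all a m)
    (exists_char a m) hs ?_ ?_
  · intro hs0
    have h1 := Ideal.pow_le_self hs0.ne' (hr 0 1)
    rw [mem_aug, lift_mapDomain] at h1
    exact h1
  · intro k φ j hj
    have h1 := mom_zero (PadicInt.toZModPow (p := p) k) φ.range.subtype s _ (hr k φ) j hj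
    rw [mom_mapDomain] at h1
    exact h1

end gens

section final

variable {p : ℕ} [hp : Fact p.Prime] {J : Type} [DecidableEq J] {a : J → ℕ} {c : Curve ℤ_[p] J}
  {r : ℕ} (X : Elements c (CycGal p a) r)

theorem vanishing_of_cyclic (hr : r ≤ p) {m : Finset J}
    (h : ∀ n ⊆ m, n.card < r → X.VanishingCyclic n) {H : Type} [CommGroup H]
    (f : Gal (CycGal p a) m →* H) : X.Vanishing f := by
  refine vanishing_of X (fun n hn hc => ?_) f
  rw [Elements.Vanishing, mapDomain_id']
  exact cyc_detect a n hr fun C _ _ g hg => h n hn hc C g hg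

theorem conj_of_cyclic (hr : r < p) {m : Finset J}
    (h : ∀ n ⊆ m, n.card ≤ r → X.ConjCyclic n) {H : Type} [CommGroup H]
    (f : Gal (CycGal p a) m →* H) : X.Conj f := by
  refine conj_of X (fun n hn hc => ?_) f
  rw [Elements.Conj, Elements.Vanishing, mapDomain_id']
  refine ⟨cyc_detect a n hr.le fun C _ _ g hg => (h n hn hc C g hg).1,
    cyc_detect a n hr fun C _ _ g hg => ?_⟩
  rw [mapDomain_sub', mapDomain_mul', MonoidAlgebra.mapDomain_single, map_one, mapDomain_det]
  exact (h n hn hc C g hg).2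

end final

end Pool.Agent.R919.MT
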