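import Pool.Agent.R919.MT.Defs

/-!
# Mazur-Tate elements: the reduction to conductors with few prime factors
-/

set_option autoImplicit false

namespace Pool.Agent.R919.MT

open Finset

section aug

variable {R : Type} [CommRing R] {H : Type} [CommGroup H] {H' : Type} [CommGroup H']

theorem mem_aug {x : MonoidAlgebra R H} :
    x ∈ augIdeal R H ↔ MonoidAlgebra.lift R R H (1 : H →* R) x = 0 := Iff.rfl

theorem single_sub_one_mem (g : H) : (MonoidAlgebra.single g 1 - 1 : MonoidAlgebra R H) ∈
    augIdeal R H := by
  rw [mem_aug, map_sub, map_one (MonoidAlgebra.lift R R H (1 : H →* R)), MonoidAlgebra.lift_single]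
  simp

theorem lift_mapDomain (f : H →* H') (x : MonoidAlgebra R H) :
    MonoidAlgebra.lift R R H' (1 : H' →* R) (MonoidAlgebra.mapDomain f x) =
      MonoidAlgebra.lift R R H (1 : H →* R) x := by
  have h : ((MonoidAlgebra.lift R R H' (1 : H' →* R)).comp (MonoidAlgebra.mapDomainAlgHom R R f)) =
      MonoidAlgebra.lift R R H (1 : H →* R) := by
    apply MonoidAlgebra.algHom_ext
    · intro g
      simp
    · exact Subsingleton.elim _ _
  exact DFunLike.congr_fun h x

theorem mapDomain_mul' (f : H →* H') (x y : MonoidAlgebra R H) :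
    MonoidAlgebra.mapDomain f (x * y) =
      MonoidAlgebra.mapDomain f x * MonoidAlgebra.mapDomain f y :=
  map_mul (MonoidAlgebra.mapDomainRingHom R f) x y

theorem mapDomain_sub' (f : H →* H') (x y : MonoidAlgebra R H) :
    MonoidAlgebra.mapDomain f (x - y) =
      MonoidAlgebra.mapDomain f x - MonoidAlgebra.mapDomain f y :=
  map_sub (MonoidAlgebra.mapDomainRingHom R f) x y

theorem mapDomain_id' (x : MonoidAlgebra R H) :
    MonoidAlgebra.mapDomain (MonoidHom.id H) x = x :=
  RingHom.congr_fun (MonoidAlgebra.mapDomainRingHom_id (R := R) (M := H)) x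

theorem mapDomain_comp' {H'' : Type} [CommGroup H''] (f : H' →* H'') (g : H →* H')
    (x : MonoidAlgebra R H) : MonoidAlgebra.mapDomain (f.comp g) x =
      MonoidAlgebra.mapDomain f (MonoidAlgebra.mapDomain g x) :=
  RingHom.congr_fun (MonoidAlgebra.mapDomainRingHom_comp (R := R) f g) x

theorem mapDomain_add' (f : H →* H') (x y : MonoidAlgebra R H) :
    MonoidAlgebra.mapDomain f (x + y) =
      MonoidAlgebra.mapDomain f x + MonoidAlgebra.mapDomain f y :=
  map_add (MonoidAlgebra.mapDomainRingHom R f) x y

theorem mapDomain_zero' (f : H →* H') :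
    MonoidAlgebra.mapDomain f (0 : MonoidAlgebra R H) = 0 :=
  map_zero (MonoidAlgebra.mapDomainRingHom R f)

theorem mapDomain_one' (f : H →* H') :
    MonoidAlgebra.mapDomain f (1 : MonoidAlgebra R H) = 1 :=
  map_one (MonoidAlgebra.mapDomainRingHom R f)

theorem mapDomain_mem_pow (f : H →* H') {x : MonoidAlgebra R H} {s : ℕ}
    (hx : x ∈ augIdeal R H ^ s) : MonoidAlgebra.mapDomain f x ∈ augIdeal R H' ^ s := by
  have h1 : (augIdeal R H).map (MonoidAlgebra.mapDomainRingHom R f) ≤ augIdeal R H' := by
    rw [Ideal.map_le_iff_le_comap]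
    intro y hy
    rw [Ideal.mem_comap, mem_aug]
    exact (lift_mapDomain f y).trans hy
  have h2 : MonoidAlgebra.mapDomainRingHom R f x ∈
      (augIdeal R H ^ s).map (MonoidAlgebra.mapDomainRingHom R f) := Ideal.mem_map_of_mem _ hx
  rw [Ideal.map_pow] at h2
  exact Ideal.pow_right_mono h1 s h2

theorem det_mem {r : ℕ} (y : Fin r → Fin r → H) : detMinusOne R y ∈ augIdeal R H ^ r := by
  rw [detMinusOne, Matrix.det_apply]
  refine Submodule.sum_mem _ fun σ _ => ?_
  have h1 : ∏ i, (Matrix.of fun i j => (MonoidAlgebra.single (y i j) 1 - 1 : MonoidAlgebra R H))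
      (σ i) i ∈ ∏ _i : Fin r, augIdeal R H :=
    Ideal.prod_mem_prod fun i _ => single_sub_one_mem _
  rw [Finset.prod_const, Finset.card_univ, Fintype.card_fin] at h1
  rw [Units.smul_def]
  exact zsmul_mem h1 _

theorem mapDomain_det (f : H →* H') {r : ℕ} (y : Fin r → Fin r → H) :
    MonoidAlgebra.mapDomain f (detMinusOne R y) = detMinusOne R fun i j => f (y i j) := by
  have h := RingHom.map_det (MonoidAlgebra.mapDomainRingHom R f)
    (Matrix.of fun i j => (MonoidAlgebra.single (y i j) 1 - 1 : MonoidAlgebra R H))
  refine h.trans ?_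
  rw [detMinusOne]
  congr 1
  ext1 i j
  show MonoidAlgebra.mapDomain f (MonoidAlgebra.single (y i j) 1 - 1 : MonoidAlgebra R H) = _
  rw [mapDomain_sub', MonoidAlgebra.mapDomain_single, mapDomain_one']
  rfl

end aug

section groups

variable {J : Type} [DecidableEq J] {G : J → Type} [∀ j, CommGroup (G j)]

/-- The projection to the coordinates in `u`. -/
def restr (m u : Finset J) : Gal G m →* Gal G m where
  toFun g l := if (l : J) ∈ u then g l else 1
  map_one' := by funext l; simp
  map_mul' g h := by
    funext l
    by_cases hl : (l : J) ∈ u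
    · simp [hl]
    · simp [hl]

/-- The extension by one. -/
def ext (n m : Finset J) : Gal G n →* Gal G m where
  toFun g l := if hl : (l : J) ∈ n then g ⟨l, hl⟩ else 1
  map_one' := by funext l; simp
  map_mul' g h := by
    funext l
    by_cases hl : (l : J) ∈ n
    · simp [hl]
    · simp [hl]

theorem ext_res {n m : Finset J} (h : n ⊆ m) :
    (ext n m).comp (res G h) = (restr m n : Gal G m →* Gal G m) := by
  refine MonoidHom.ext fun g => funext fun l => ?_
  by_cases hl : (l : J) ∈ n
  · simp [ext, res, restr, hl]
  · simp [ext, res, restr, hl]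

theorem restr_self (m : Finset J) : (restr m m : Gal G m →* Gal G m) = MonoidHom.id _ := by
  refine MonoidHom.ext fun g => funext fun l => ?_
  simp [restr, l.2]

theorem restr_empty (m : Finset J) (g : Gal G m) : restr m ∅ g = 1 := by
  funext l
  simp [restr]

theorem restr_insert (m : Finset J) {a : J} {u : Finset J} (ha : a ∉ u) (g : Gal G m) :
    restr m (insert a u) g = restr m {a} g * restr m u g := by
  funext l
  by_cases h1 : (l : J) = a
  · have h2 : (l : J) ∉ u := by rw [h1]; exact ha
    simp [restr, h1, ha]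
  · simp [restr, h1]

end groups

section main

variable {R : Type} [CommRing R] {J : Type} [DecidableEq J] {G : J → Type} [∀ j, CommGroup (G j)]

theorem prod_restr (m u : Finset J) (g : Gal G m) :
    ∏ l ∈ u, (MonoidAlgebra.single (restr m {l} g) 1 : MonoidAlgebra R (Gal G m)) =
      MonoidAlgebra.single (restr m u g) 1 := by
  induction u using Finset.induction_on with
  | empty => rw [Finset.prod_empty, restr_empty]; rfl
  | insert a u ha ih =>
    rw [Finset.prod_insert ha, ih, restr_insert m ha, MonoidAlgebra.single_mul_single, one_mul]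

theorem key (m n : Finset J) (x : MonoidAlgebra R (Gal G m)) :
    ∑ u ∈ n.powerset, (-1 : R) ^ (n \ u).card • MonoidAlgebra.mapDomain (restr m u) x ∈
      augIdeal R (Gal G m) ^ n.card := by
  induction x using MonoidAlgebra.induction_linear with
  | zero =>
    refine Submodule.sum_mem _ fun u _ => ?_
    rw [mapDomain_zero', smul_zero]
    exact Ideal.zero_mem _
  | add x y hx hy =>
    have h : ∑ u ∈ n.powerset, (-1 : R) ^ (n \ u).card •
        MonoidAlgebra.mapDomain (restr m u) (x + y) =
        ∑ u ∈ n.powerset, (-1 : R) ^ (n \ u).card • MonoidAlgebra.mapDomain (restr m u) x +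
        ∑ u ∈ n.powerset, (-1 : R) ^ (n \ u).card • MonoidAlgebra.mapDomain (restr m u) y := by
      rw [← Finset.sum_add_distrib]
      refine Finset.sum_congr rfl fun u _ => ?_
      rw [← smul_add, mapDomain_add']
    rw [h]
    exact Ideal.add_mem _ hx hy
  | single g a =>
    have h1 : ∏ l ∈ n, ((MonoidAlgebra.single (restr m {l} g) 1 : MonoidAlgebra R (Gal G m)) - 1) ∈
        augIdeal R (Gal G m) ^ n.card := by
      have h2 := Ideal.prod_mem_prod (s := n) (I := fun _ => augIdeal R (Gal G m))
        (x := fun l => (MonoidAlgebra.single (restr m {l} g) 1 : MonoidAlgebra R (Gal G m)) - 1)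
        fun l _ => single_sub_one_mem _
      rwa [Finset.prod_const] at h2
    have h2 : ∑ u ∈ n.powerset, (-1 : R) ^ (n \ u).card •
        MonoidAlgebra.mapDomain (restr m u) (MonoidAlgebra.single g a) =
        MonoidAlgebra.single 1 a *
        ∏ l ∈ n, ((MonoidAlgebra.single (restr m {l} g) 1 : MonoidAlgebra R (Gal G m)) - 1) := by
      simp_rw [sub_eq_add_neg]
      rw [Finset.prod_add, Finset.mul_sum]
      refine Finset.sum_congr rfl fun u _ => ?_
      rw [prod_restr, Finset.prod_const, MonoidAlgebra.mapDomain_single]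
      rw [← mul_assoc, MonoidAlgebra.single_mul_single, one_mul, mul_one]
      rcases Nat.even_or_odd (n \ u).card with h | h
      · rw [h.neg_one_pow, h.neg_one_pow, one_smul, mul_one]
      · rw [h.neg_one_pow, h.neg_one_pow, neg_one_smul, mul_neg_one]
    rw [h2]
    exact Ideal.mul_mem_left _ _ h1

/-- **Powers of the augmentation ideal are detected by few coordinates.** -/
theorem detect (m : Finset J) (s : ℕ) (x : MonoidAlgebra R (Gal G m))
    (h : ∀ n (hn : n ⊆ m), n.card < s →
      MonoidAlgebra.mapDomain (res G hn) x ∈ augIdeal R (Gal G n) ^ s) :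
    x ∈ augIdeal R (Gal G m) ^ s := by
  have main : ∀ n : Finset J, n ⊆ m →
      MonoidAlgebra.mapDomain (restr m n) x ∈ augIdeal R (Gal G m) ^ s := by
    intro n
    induction n using Finset.strongInduction with
    | H n ih =>
      intro hn
      by_cases hc : n.card < s
      · have h1 := mapDomain_mem_pow (ext n m) (h n hn hc)
        have h2 : MonoidAlgebra.mapDomain (ext n m) (MonoidAlgebra.mapDomain (res G hn) x) =
            MonoidAlgebra.mapDomain (restr m n) x := by
          rw [← ext_res hn, mapDomain_comp']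
        rwa [h2] at h1
      · have h1 := Ideal.pow_le_pow_right (not_lt.1 hc) (key m n x)
        rw [← Finset.add_sum_erase _ _ (Finset.mem_powerset_self n), Finset.sdiff_self,
          Finset.card_empty, pow_zero, one_smul] at h1
        refine (Ideal.add_mem_iff_left _ ?_).1 h1
        refine Submodule.sum_mem _ fun u hu => ?_
        rw [Finset.mem_erase, Finset.mem_powerset] at hu
        have hun : u ⊂ n := hu.2.ssubset_of_ne hu.1
        have h3 := ih u hun (hu.2.trans hn)
        rcases Nat.even_or_odd (n \ u).card with h | h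
        · rw [h.neg_one_pow, one_smul]
          exact h3
        · rw [h.neg_one_pow, neg_one_smul]
          exact Ideal.neg_mem_iff _ |>.2 h3
  have h1 := main m subset_rfl
  rw [restr_self] at h1
  rwa [mapDomain_id'] at h1

end main

section conj

variable {R J : Type} [CommRing R] [DecidableEq J] {c : Curve R J} {G : J → Type}
  [∀ j, CommGroup (G j)] {r : ℕ} (X : Elements c G r)

theorem euler_aug {H : Type} [CommGroup H] (l : J) (u v : H) :
    MonoidAlgebra.lift R R H (1 : H →* R) (c.euler l u v) = -c.points l := by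
  rw [Curve.euler, Curve.points, map_mul, map_neg, map_add, map_sub,
    map_one (MonoidAlgebra.lift R R H (1 : H →* R)),
    MonoidAlgebra.lift_single, MonoidAlgebra.lift_single, MonoidAlgebra.lift_single]
  simp

/-- **The order of vanishing.** -/
theorem vanishing_of {m : Finset J}
    (h : ∀ n ⊆ m, n.card < r → X.Vanishing (MonoidHom.id (Gal G n)))
    {H : Type} [CommGroup H] (f : Gal G m →* H) : X.Vanishing f := by
  have h1 : X.θ m ∈ augIdeal R (Gal G m) ^ r := by
    refine detect m r _ fun n hn hc => ?_
    rw [X.θ_res hn]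
    refine Ideal.mul_mem_left _ _ ?_
    have h2 := h n hn hc
    rw [Elements.Vanishing] at h2
    rwa [mapDomain_id'] at h2
  exact mapDomain_mem_pow f h1

/-- **The conjecture of Mazur and Tate.** -/
theorem conj_of {m : Finset J}
    (h : ∀ n ⊆ m, n.card ≤ r → X.Conj (MonoidHom.id (Gal G n)))
    {H : Type} [CommGroup H] (f : Gal G m →* H) : X.Conj f := by
  refine ⟨vanishing_of X (fun n hn hc => (h n hn hc.le).1) f, ?_⟩
  have h1 : X.θ m - MonoidAlgebra.single 1 (c.leading m) * detMinusOne R (X.pairing m) ∈
      augIdeal R (Gal G m) ^ (r + 1) := by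
    refine detect m (r + 1) _ fun n hn hc => ?_
    have h2 := (h n hn (Nat.lt_succ_iff.1 hc)).2
    rw [mapDomain_id'] at h2
    have h2' : X.θ n - MonoidAlgebra.single 1 (c.leading n) * detMinusOne R (X.pairing n) ∈
      augIdeal R (Gal G n) ^ (r + 1) := h2
    rw [mapDomain_sub', X.θ_res hn, mapDomain_mul', MonoidAlgebra.mapDomain_single, map_one,
      mapDomain_det]
    have h3 : (fun i j => res G hn (X.pairing m i j)) = X.pairing n := by
      funext i j
      exact X.pairing_res hn i j
    rw [h3]
    set E : MonoidAlgebra R (Gal G n) := ∏ l ∈ m \ n, c.euler l (X.u n l) (X.v n l) with hE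
    set e : R := ∏ l ∈ m \ n, -c.points l with he
    have h4 : c.leading m = e * c.leading n := by
      rw [Curve.leading, Curve.leading, he, ← Finset.prod_sdiff hn]
      ring
    have h5 : E - MonoidAlgebra.single 1 e ∈ augIdeal R (Gal G n) := by
      rw [mem_aug, map_sub, MonoidAlgebra.lift_single, hE, map_prod]
      simp_rw [euler_aug]
      simp [he]
    have h6 : E * X.θ n - MonoidAlgebra.single 1 (c.leading m) * detMinusOne R (X.pairing n) =
        E * (X.θ n - MonoidAlgebra.single 1 (c.leading n) * detMinusOne R (X.pairing n)) +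
        (E - MonoidAlgebra.single 1 e) *
          (MonoidAlgebra.single 1 (c.leading n) * detMinusOne R (X.pairing n)) := by
      have h7 : (MonoidAlgebra.single 1 (c.leading m) : MonoidAlgebra R (Gal G n)) =
          MonoidAlgebra.single 1 e * MonoidAlgebra.single 1 (c.leading n) := by
        rw [MonoidAlgebra.single_mul_single, one_mul, h4]
      rw [h7]
      ring
    rw [h6]
    refine Ideal.add_mem _ (Ideal.mul_mem_left _ _ h2') ?_
    rw [pow_succ']
    exact Ideal.mul_mem_mul h5 (Ideal.mul_mem_left _ _ (det_mem _))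
  have h2 := mapDomain_mem_pow f h1
  rw [mapDomain_sub', mapDomain_mul', MonoidAlgebra.mapDomain_single, map_one, mapDomain_det] at h2
  exact h2

end conj

end Pool.Agent.R919.MT
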