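import Pool.Agent.R919.MT.Main

/-!
# Moments of elements of a group ring
-/

set_option autoImplicit false

namespace Pool.Agent.R919.MT

open Finset

section span

variable {R : Type} [CommRing R] {H : Type} [CommGroup H]

theorem sub_mem_span (y : MonoidAlgebra R H) :
    y - MonoidAlgebra.single 1 (MonoidAlgebra.lift R R H (1 : H →* R) y) ∈
      Ideal.span (Set.range fun g : H => (MonoidAlgebra.single g 1 - 1 : MonoidAlgebra R H)) := by
  induction y using MonoidAlgebra.induction_linear with
  | zero => simp
  | add x y hx hy =>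
    rw [map_add, MonoidAlgebra.single_add, add_sub_add_comm]
    exact Ideal.add_mem _ hx hy
  | single g c =>
    have h : (MonoidAlgebra.single g c : MonoidAlgebra R H) -
        MonoidAlgebra.single 1 (MonoidAlgebra.lift R R H (1 : H →* R) (MonoidAlgebra.single g c)) =
        MonoidAlgebra.single 1 c * (MonoidAlgebra.single g 1 - 1) := by
      rw [mul_sub, MonoidAlgebra.single_mul_single, one_mul, mul_one, mul_one,
        MonoidAlgebra.lift_single]
      simp
    rw [h]
    exact Ideal.mul_mem_left _ _ (Ideal.subset_span ⟨g, rfl⟩)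

theorem mem_span {y : MonoidAlgebra R H} (hy : y ∈ augIdeal R H) :
    y ∈ Ideal.span (Set.range fun g : H =>
      (MonoidAlgebra.single g 1 - 1 : MonoidAlgebra R H)) := by
  have h := sub_mem_span y
  rw [mem_aug.1 hy] at h
  simpa using h

/-- An induction principle for the powers of the augmentation ideal. -/
theorem pow_succ_induction {s : ℕ} {P : MonoidAlgebra R H → Prop} (h0 : P 0)
    (hadd : ∀ x y, P x → P y → P (x + y))
    (hmul : ∀ x ∈ augIdeal R H ^ s, ∀ g : H, P (x * (MonoidAlgebra.single g 1 - 1)))
    {z : MonoidAlgebra R H} (hz : z ∈ augIdeal R H ^ (s + 1)) : P z := by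
  have h1 : ∀ y ∈ Ideal.span (Set.range fun g : H =>
      (MonoidAlgebra.single g 1 - 1 : MonoidAlgebra R H)), ∀ x ∈ augIdeal R H ^ s, P (x * y) := by
    intro y hy
    induction hy using Submodule.span_induction with
    | mem y hy =>
      obtain ⟨g, rfl⟩ := hy
      exact fun x hx => hmul x hx g
    | zero => intro x _; rw [mul_zero]; exact h0
    | add y z _ _ hy hz => intro x hx; rw [mul_add]; exact hadd _ _ (hy x hx) (hz x hx)
    | smul a y _ hy =>
      intro x hx
      rw [smul_eq_mul, ← mul_assoc]
      exact hy _ (Ideal.mul_mem_right _ _ hx)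
  rw [pow_succ] at hz
  exact Submodule.mul_induction_on hz (fun x hx y hy => h1 y (mem_span hy) x hx) hadd

end span

section moments

variable {R : Type} [CommRing R] {A : Type} [CommRing A] (ρ : R →+* A) {H : Type} [CommGroup H]
  (φ : H →* Multiplicative A)

/-- The moments. -/
noncomputable def mom (j : ℕ) : MonoidAlgebra R H →+ A :=
  MonoidAlgebra.liftNC (ρ : R →+ A) fun g => (φ g).toAdd ^ j

theorem mom_single (j : ℕ) (g : H) (c : R) :
    mom ρ φ j (MonoidAlgebra.single g c) = ρ c * (φ g).toAdd ^ j :=
  MonoidAlgebra.liftNC_single _ _ _ _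

theorem mom_mul_single (j : ℕ) (x : MonoidAlgebra R H) (g : H) :
    mom ρ φ j (x * MonoidAlgebra.single g 1) =
      ∑ i ∈ range (j + 1), mom ρ φ i x * (φ g).toAdd ^ (j - i) * (j.choose i : A) := by
  induction x using MonoidAlgebra.induction_linear with
  | zero => simp
  | add x y hx hy =>
    rw [add_mul, map_add, hx, hy, ← Finset.sum_add_distrib]
    refine Finset.sum_congr rfl fun i _ => ?_
    rw [map_add]
    ring
  | single h c =>
    rw [MonoidAlgebra.single_mul_single, mul_one, mom_single, map_mul, toAdd_mul, add_pow,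
      Finset.mul_sum]
    refine Finset.sum_congr rfl fun i _ => ?_
    rw [mom_single]
    ring

theorem mom_mul_sub (j : ℕ) (x : MonoidAlgebra R H) (g : H) :
    mom ρ φ j (x * (MonoidAlgebra.single g 1 - 1)) =
      ∑ i ∈ range j, mom ρ φ i x * (φ g).toAdd ^ (j - i) * (j.choose i : A) := by
  rw [mul_sub, mul_one, map_sub, mom_mul_single, Finset.sum_range_succ, Nat.sub_self, pow_zero,
    Nat.choose_self, Nat.cast_one, mul_one, mul_one, add_sub_cancel_right]

theorem mom_zero (s : ℕ) : ∀ x ∈ augIdeal R H ^ s, ∀ j < s, mom ρ φ j x = 0 := by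
  induction s with
  | zero => intro x _ j hj; omega
  | succ s ih =>
    intro x hx
    refine pow_succ_induction (P := fun x => ∀ j < s + 1, mom ρ φ j x = 0) ?_ ?_ ?_ hx
    · intro j _; exact map_zero _
    · intro x y h1 h2 j hj
      rw [map_add, h1 j hj, h2 j hj, add_zero]
    · intro x hx g j hj
      rw [mom_mul_sub]
      refine Finset.sum_eq_zero fun i hi => ?_
      rw [ih x hx i (by have := Finset.mem_range.1 hi; omega), zero_mul, zero_mul]

theorem mom_succ {j : ℕ} {x : MonoidAlgebra R H} (hx : x ∈ augIdeal R H ^ j) (g : H) :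
    mom ρ φ (j + 1) (x * (MonoidAlgebra.single g 1 - 1)) =
      ((j + 1 : ℕ) : A) * (φ g).toAdd * mom ρ φ j x := by
  rw [mom_mul_sub, Finset.sum_range_succ, Finset.sum_eq_zero, zero_add, Nat.add_sub_cancel_left,
    pow_one, Nat.choose_succ_self_right]
  · ring
  · intro i hi
    rw [mom_zero ρ φ j x hx i (Finset.mem_range.1 hi), zero_mul, zero_mul]

theorem mom_mapDomain {H' : Type} [CommGroup H'] (ψ : H' →* H) (j : ℕ) (x : MonoidAlgebra R H') :
    mom ρ φ j (MonoidAlgebra.mapDomain ψ x) = mom ρ (φ.comp ψ) j x := by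
  induction x using MonoidAlgebra.induction_linear with
  | zero => rw [mapDomain_zero', map_zero, map_zero]
  | add x y hx hy => rw [mapDomain_add', map_add, map_add, hx, hy]
  | single h c => rw [MonoidAlgebra.mapDomain_single, mom_single, mom_single]; rfl

end moments

section poly

variable {R : Type} [CommRing R] {H : Type} [CommGroup H] {T : Type} [Fintype T] (e : T → H)

/-- The polynomial in the elements `e_l - 1`. -/
noncomputable def ev : MvPolynomial T R →ₐ[R] MonoidAlgebra R H :=
  MvPolynomial.aeval fun l => (MonoidAlgebra.single (e l) 1 - 1 : MonoidAlgebra R H)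

theorem ev_X (l : T) : ev (R := R) e (MvPolynomial.X l) = MonoidAlgebra.single (e l) 1 - 1 :=
  MvPolynomial.aeval_X _ _

theorem ev_monomial_succ (α : T →₀ ℕ) (l : T) (c : R) :
    ev e (MvPolynomial.monomial (α + Finsupp.single l 1) c) =
      ev e (MvPolynomial.monomial α c) * (MonoidAlgebra.single (e l) 1 - 1) := by
  rw [← ev_X (R := R) e l, ← map_mul, MvPolynomial.X, MvPolynomial.monomial_mul, mul_one]

/-- An induction principle for monomials. -/
theorem monomial_induction {P : (T →₀ ℕ) → Prop} (h0 : P 0)
    (h1 : ∀ α l, P α → P (α + Finsupp.single l 1)) (α : T →₀ ℕ) : P α := by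
  classical
  induction h : α.degree generalizing α with
  | zero =>
    have h2 : α = 0 := (Finsupp.degree_eq_zero_iff α).1 h
    rw [h2]; exact h0
  | succ d ih =>
    have h2 : α ≠ 0 := by
      rintro rfl
      simp at h
    obtain ⟨l, hl⟩ := Finsupp.ne_iff.1 h2
    have h3 : α = (α - Finsupp.single l 1) + Finsupp.single l 1 := by
      ext i
      by_cases hi : i = l
      · subst hi
        have : α i ≠ 0 := hl
        simp
        omega
      · simp [Finsupp.single_apply, Ne.symm hi]
    rw [h3]
    refine h1 _ _ (ih _ ?_)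
    have h4 := congrArg Finsupp.degree h3
    rw [map_add, Finsupp.degree_single] at h4
    omega

theorem ev_monomial_mem (α : T →₀ ℕ) (c : R) :
    ev e (MvPolynomial.monomial α c) ∈ augIdeal R H ^ α.degree := by
  induction α using monomial_induction with
  | h0 => simp
  | h1 α l h =>
    rw [ev_monomial_succ, map_add, Finsupp.degree_single, pow_succ]
    exact Ideal.mul_mem_mul h (single_sub_one_mem _)

theorem mom_monomial {A : Type} [CommRing A] (ρ : R →+* A) (φ : H →* Multiplicative A)
    (α : T →₀ ℕ) (c : R) :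
    mom ρ φ α.degree (ev e (MvPolynomial.monomial α c)) =
      (α.degree.factorial : A) * (ρ c * ∏ l, (φ (e l)).toAdd ^ α l) := by
  classical
  induction α using monomial_induction with
  | h0 =>
    have h1 : ev e (MvPolynomial.monomial (0 : T →₀ ℕ) c) = MonoidAlgebra.single (1 : H) c := by
      rw [show (MvPolynomial.monomial (0 : T →₀ ℕ) c : MvPolynomial T R) = MvPolynomial.C c from rfl]
      rw [← MvPolynomial.algebraMap_eq, AlgHom.commutes]
      rfl
    rw [h1]
    simp [mom_single]
  | h1 α l h =>
    rw [ev_monomial_succ, map_add, Finsupp.degree_single, mom_succ ρ φ (ev_monomial_mem e α c), h,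
      Nat.factorial_succ]
    have h2 : ∏ i, (φ (e i)).toAdd ^ (α + Finsupp.single l 1 : T →₀ ℕ) i =
        (φ (e l)).toAdd * ∏ i, (φ (e i)).toAdd ^ α i := by
      rw [← Finset.mul_prod_erase Finset.univ _ (Finset.mem_univ l),
        ← Finset.mul_prod_erase Finset.univ (fun i => (φ (e i)).toAdd ^ α i) (Finset.mem_univ l)]
      rw [Finsupp.add_apply, Finsupp.single_eq_same, pow_succ', mul_assoc]
      congr 2
      refine Finset.prod_congr rfl fun i hi => ?_
      rw [Finsupp.add_apply, Finsupp.single_eq_of_ne (Finset.ne_of_mem_erase hi), add_zero]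
    rw [h2, Nat.cast_mul]
    ring

theorem ev_mem {P : MvPolynomial T R} {j : ℕ} (hP : P.IsHomogeneous j) :
    ev e P ∈ augIdeal R H ^ j := by
  rw [P.as_sum, map_sum]
  refine Submodule.sum_mem _ fun α hα => ?_
  have h1 : α.degree = j := by
    have h2 := hP (MvPolynomial.mem_support_iff.1 hα)
    rw [Finsupp.degree_eq_weight_one]
    exact h2
  rw [← h1]
  exact ev_monomial_mem e α _

theorem mom_ev {A : Type} [CommRing A] (ρ : R →+* A) (φ : H →* Multiplicative A)
    {P : MvPolynomial T R} {j : ℕ} (hP : P.IsHomogeneous j) :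
    mom ρ φ j (ev e P) = (j.factorial : A) * MvPolynomial.eval₂ ρ (fun l => (φ (e l)).toAdd) P := by
  conv_lhs => rw [P.as_sum, map_sum, map_sum]
  rw [MvPolynomial.eval₂_eq', Finset.mul_sum]
  refine Finset.sum_congr rfl fun α hα => ?_
  have h1 : α.degree = j := by
    have h2 := hP (MvPolynomial.mem_support_iff.1 hα)
    rw [Finsupp.degree_eq_weight_one]
    exact h2
  rw [← h1]
  exact mom_monomial e ρ φ α _

end poly

end Pool.Agent.R919.MT
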